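import Pool.Agent.H47.Tri.Lower
import Pool.Agent.H58.Tri.U1
import Pool.Agent.H58.Tri.Few

/-!
# MP_c17047_co: the order of growth of `t(n)`

The minimum `t(n)` of the number of triangular faces over all convex drawings of `K_n` (several
edges may pass through one point) satisfies `(4 n^2 - 19 n + 24) / 3 ≤ t(n) ≤
(3 n^2 - 15 n + 20) / 2`.
-/

namespace Pool.Agent.Results.MP_c17047_co.AllDrawings

open Pool.H47.Tri

/-- `t(n)`: the minimum of the number of 3-faces over all convex drawings of `K_n`. -/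
noncomputable def minTri (n : ℕ) : ℕ∞ := sInf {t | ∃ P : Fin n → ℝ × ℝ, IsConvexDrawing P ∧ t = numTri P}

theorem result (n : ℕ) (hn : 3 ≤ n) :
    ((3 * (n - 2) ^ 2 + 2 * (n - 3).choose 2 : ℕ) : ℕ∞) ≤ 3 * minTri n ∧
      minTri n ≤ (((n - 2) ^ 2 + (n - 3).choose 2 : ℕ) : ℕ∞) := by
  obtain ⟨P, hP, hg, hle⟩ := Pool.Agent.H58.Tri.exists_few hn fun P hP F => isFace_iff hn hP F
  have hc : IsConvexDrawing P := Pool.Agent.H58.Tri.ccw_convex hn hP
  constructor
  · have hne : {t | ∃ P : Fin n → ℝ × ℝ, IsConvexDrawing P ∧ t = numTri P}.Nonempty :=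
      ⟨_, P, hc, rfl⟩
    obtain ⟨Q, hQ, hmin⟩ := csInf_mem hne
    have := lower_general hn hQ
    unfold minTri
    rw [hmin]
    exact this
  · have hmem : numTri P ∈ {t | ∃ P : Fin n → ℝ × ℝ, IsConvexDrawing P ∧ t = numTri P} :=
      ⟨P, hc, rfl⟩
    exact (sInf_le hmem).trans hle

end Pool.Agent.Results.MP_c17047_co.AllDrawings
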