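import Pool.Agent.H47.Tri.Lower
import Pool.Agent.H58.Tri.U1
import Pool.Agent.H58.Tri.Few

/-!
# MP_c17047_co: the minimum number of triangular faces over all generic convex drawings of `K_n`

For every `n ≥ 3` the minimum number of triangular faces (3-faces) over all generic convex
straight-line drawings of `K_n` is `(n - 2)^2 + C(n - 3, 2) = (3 n^2 - 15 n + 20) / 2`.

Lower bound: helper47 (proof), helper41 (modules M, B1, B2, B3).
Upper bound: helper58 (formal proof), after helper39, helper46, helper76, helper85.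
-/

namespace Pool.Agent.Results.MP_c17047_co.GenericMin

open Pool.H47.Tri

theorem result (n : ℕ) (hn : 3 ≤ n) :
    IsLeast {t : ℕ∞ | ∃ P : Fin n → ℝ × ℝ, IsConvexDrawing P ∧ IsGeneric P ∧ t = numTri P}
      (((n - 2) ^ 2 + (n - 3).choose 2 : ℕ) : ℕ∞) := by
  constructor
  · obtain ⟨P, hP, hg, hle⟩ := Pool.Agent.H58.Tri.exists_few hn fun P hP F => isFace_iff hn hP F
    have hc : IsConvexDrawing P := Pool.Agent.H58.Tri.ccw_convex hn hP
    exact ⟨P, hc, hg, le_antisymm (lower_generic hn hc hg) hle⟩
  · rintro t ⟨P, hP, hg, rfl⟩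
    exact lower_generic hn hP hg

end Pool.Agent.Results.MP_c17047_co.GenericMin
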