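import Pool.Agent.H44.Tri.Final

/-!
# MP_c17047_co: the regular drawing of `K_n` has `Θ(n ^ 4)` triangular faces

`regularPolygon n` lists the vertices of the regular `n`-gon inscribed in the unit circle.  The
number `t_reg(n)` of triangular faces of its drawing satisfies `c n^4 ≤ t_reg(n) ≤ n^4` for all
`n ≥ 3`, with an absolute constant `c > 0`.
-/

namespace Pool.Agent.Results.MP_c17047_co.RegularOrder

open Pool.H47.Tri Pool.Agent.H44.Tri

theorem result :
    (∀ n : ℕ, 3 ≤ n → IsConvexDrawing (regularPolygon n)) ∧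
      ∃ c : ℝ, 0 < c ∧ ∀ n : ℕ, 3 ≤ n → ∃ t : ℕ,
        numTri (regularPolygon n) = (t : ℕ∞) ∧ c * (n : ℝ) ^ 4 ≤ t ∧ t ≤ n ^ 4 :=
  ⟨fun n hn => Pool.Agent.H58.Tri.ccw_convex hn (ccw_reg n), regular_order⟩

end Pool.Agent.Results.MP_c17047_co.RegularOrder
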